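import Pool.Agent.H295R3.NA.StmtsB

set_option autoImplicit false

open Finset ArithmeticFunction Filter Topology

namespace Pool.Agent.H935R3.NA

open Pool.Agent.H295R3.NA

theorem xx_pos (y : ℝ) : 0 < xx y := Real.exp_pos _

theorem loglog_xx (y : ℝ) : Real.log (Real.log (xx y)) = y ^ 2 * Real.log 2 := by
  unfold xx
  rw [Real.log_exp, Real.log_exp]

theorem tendsto_xx : Tendsto xx atTop atTop := by
  unfold xx
  refine Real.tendsto_exp_atTop.comp (Real.tendsto_exp_atTop.comp ?_)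
  exact (tendsto_pow_atTop (two_ne_zero)).atTop_mul_const (Real.log_pos (by norm_num))

theorem prod_eq (N x h g : ℝ) (hx : x ≠ 0) (hh : h ≠ 0) :
    N / (x * h) * (h / g) = N / x / g := by
  by_cases hg : g = 0
  · simp [hg]
  · field_simp

/-- averages of a function which is eventually at least `r` -/
theorem avg_ge {F : ℝ → ℝ} {r : ℝ} (h : ∀ᶠ y in atTop, r ≤ F y)
    (hA : Tendsto (fun Y : ℝ => (1 / Y) * ∫ y in Y..(2 * Y), F y) atTop (𝓝 1)) : r ≤ 1 := by
  refine ge_of_tendsto hA ?_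
  obtain ⟨Y0, hY0⟩ := eventually_atTop.1 h
  have h1 : ∀ᶠ Y : ℝ in atTop, (1 / Y) * ∫ y in Y..(2 * Y), F y ≠ 0 := by
    have := hA.eventually_ne (one_ne_zero)
    exact this
  filter_upwards [h1, eventually_ge_atTop Y0, eventually_gt_atTop 0] with Y hne hY hpos
  have hint : IntervalIntegrable F MeasureTheory.volume Y (2 * Y) := by
    by_contra hc
    apply hne
    rw [intervalIntegral.integral_undef hc, mul_zero]
  have h2 : ∫ y in Y..(2 * Y), r ≤ ∫ y in Y..(2 * Y), F y := by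
    refine intervalIntegral.integral_mono_on (by linarith) (by simp) hint ?_
    intro y hy
    exact hY0 y (hY.trans hy.1)
  rw [intervalIntegral.integral_const, smul_eq_mul] at h2
  have h3 : r * Y ≤ ∫ y in Y..(2 * Y), F y := by linarith [h2]
  have h4 : r = (1 / Y) * (r * Y) := by field_simp
  rw [h4]
  exact mul_le_mul_of_nonneg_left h3 (by positivity)

theorem avg_le {F : ℝ → ℝ} {r : ℝ} (h : ∀ᶠ y in atTop, F y ≤ r)
    (hA : Tendsto (fun Y : ℝ => (1 / Y) * ∫ y in Y..(2 * Y), F y) atTop (𝓝 1)) : 1 ≤ r := by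
  refine le_of_tendsto hA ?_
  obtain ⟨Y0, hY0⟩ := eventually_atTop.1 h
  have h1 : ∀ᶠ Y : ℝ in atTop, (1 / Y) * ∫ y in Y..(2 * Y), F y ≠ 0 := by
    have := hA.eventually_ne (one_ne_zero)
    exact this
  filter_upwards [h1, eventually_ge_atTop Y0, eventually_gt_atTop 0] with Y hne hY hpos
  have hint : IntervalIntegrable F MeasureTheory.volume Y (2 * Y) := by
    by_contra hc
    apply hne
    rw [intervalIntegral.integral_undef hc, mul_zero]
  have h2 : ∫ y in Y..(2 * Y), F y ≤ ∫ y in Y..(2 * Y), r := by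
    refine intervalIntegral.integral_mono_on (by linarith) hint (by simp) ?_
    intro y hy
    exact hY0 y (hY.trans hy.1)
  rw [intervalIntegral.integral_const, smul_eq_mul] at h2
  have h3 : ∫ y in Y..(2 * Y), F y ≤ r * Y := by linarith [h2]
  have h4 : r = (1 / Y) * (r * Y) := by field_simp
  rw [h4]
  exact mul_le_mul_of_nonneg_left h3 (by positivity)

theorem taskUQ : TaskUQ := by
  intro hAVN h hN c hc
  have hA : Tendsto (fun y : ℝ => Nb NonArith ⌊xx y⌋₊ / (xx y * h (xx y))) atTop (𝓝 1) :=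
    hN.comp tendsto_xx
  have hB : Tendsto (fun y : ℝ => ((h (xx y) / gg (y ^ 2 * Real.log 2) : ℝ) : EReal)) atTop
      (𝓝 c) := by
    have h0 := hc.comp tendsto_xx
    refine h0.congr fun y => ?_
    simp only [Function.comp]
    rw [loglog_xx]
  have hne : ∀ᶠ y : ℝ in atTop, h (xx y) ≠ 0 := by
    filter_upwards [hA.eventually_ne one_ne_zero] with y hy h0
    apply hy
    rw [h0]
    simp
  have hF : ∀ᶠ y : ℝ in atTop, (Nb NonArith ⌊xx y⌋₊ / xx y) / gg (y ^ 2 * Real.log 2) =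
      Nb NonArith ⌊xx y⌋₊ / (xx y * h (xx y)) * (h (xx y) / gg (y ^ 2 * Real.log 2)) := by
    filter_upwards [hne] with y hy
    exact (prod_eq _ _ _ _ (xx_pos y).ne' hy).symm
  have hpos : ∀ᶠ y : ℝ in atTop, 0 ≤ Nb NonArith ⌊xx y⌋₊ / (xx y * h (xx y)) :=
    (hA.eventually_const_lt zero_lt_one).mono fun y hy => hy.le
  rcases lt_trichotomy c 1 with hc1 | hc1 | hc1
  · exfalso
    obtain ⟨r, hr1, hr2⟩ : ∃ r : ℝ, c < (r : EReal) ∧ max 0 r < 1 := by
      obtain ⟨r, hr1, hr2⟩ := EReal.lt_iff_exists_real_btwn.1 hc1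
      refine ⟨r, hr1, ?_⟩
      have : r < 1 := by exact_mod_cast hr2
      exact max_lt one_pos this
    set s : ℝ := max (1 / 2) r with hs
    have hs0 : 0 < s := lt_of_lt_of_le (by norm_num) (le_max_left _ _)
    have hs1 : s < 1 := max_lt (by norm_num) (lt_of_le_of_lt (le_max_right _ _) hr2)
    have hBs : ∀ᶠ y : ℝ in atTop, h (xx y) / gg (y ^ 2 * Real.log 2) ≤ s := by
      filter_upwards [(tendsto_order.1 hB).2 _ hr1] with y hy
      have : h (xx y) / gg (y ^ 2 * Real.log 2) < r := by exact_mod_cast hy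
      exact this.le.trans (le_max_right _ _)
    have hAs : ∀ᶠ y : ℝ in atTop, Nb NonArith ⌊xx y⌋₊ / (xx y * h (xx y)) <
        (1 + s) / 2 / s := by
      refine (tendsto_order.1 hA).2 _ ?_
      show (1 : ℝ) < (1 + s) / 2 / s
      rw [lt_div_iff₀ hs0]
      linarith
    have := avg_le (r := (1 + s) / 2) ?_ hAVN
    · linarith
    · filter_upwards [hF, hpos, hBs, hAs] with y h1 h2 h3 h4
      rw [h1]
      calc _ ≤ Nb NonArith ⌊xx y⌋₊ / (xx y * h (xx y)) * s := mul_le_mul_of_nonneg_left h3 h2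
        _ ≤ (1 + s) / 2 / s * s := mul_le_mul_of_nonneg_right h4.le hs0.le
        _ = (1 + s) / 2 := by field_simp
  · exact hc1
  · exfalso
    obtain ⟨s, hr1, hr2⟩ := EReal.lt_iff_exists_real_btwn.1 hc1
    have hs1 : 1 < s := by exact_mod_cast hr1
    have hs0 : 0 < s := by linarith
    have hBs : ∀ᶠ y : ℝ in atTop, s ≤ h (xx y) / gg (y ^ 2 * Real.log 2) := by
      filter_upwards [(tendsto_order.1 hB).1 _ hr2] with y hy
      have : s < h (xx y) / gg (y ^ 2 * Real.log 2) := by exact_mod_cast hy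
      exact this.le
    have hAs : ∀ᶠ y : ℝ in atTop, (1 + s) / 2 / s <
        Nb NonArith ⌊xx y⌋₊ / (xx y * h (xx y)) := by
      refine (tendsto_order.1 hA).1 _ ?_
      rw [div_lt_iff₀ hs0]
      linarith
    have := avg_ge (r := (1 + s) / 2) ?_ hAVN
    · linarith
    · filter_upwards [hF, hpos, hBs, hAs] with y h1 h2 h3 h4
      rw [h1]
      calc (1 + s) / 2 = (1 + s) / 2 / s * s := by field_simp
        _ ≤ Nb NonArith ⌊xx y⌋₊ / (xx y * h (xx y)) * s := mul_le_mul_of_nonneg_right h4.le hs0.le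
        _ ≤ _ := mul_le_mul_of_nonneg_left h3 h2

end Pool.Agent.H935R3.NA
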